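import Mathlib
import Pool.Agent.helper391_SN.Main

set_option autoImplicit false

/-!
# Record gaps between primes around self numbers in all short intervals

Let `s(m)` be the sum of the digits of `m` in base `b`. A self number (Kaprekar; also Colombian number) is a
positive integer that is not of the form `m + s(m)`. Let `f(x) = log x (log₂ x)² log₄ x / (log₃ x)²` (iterated
natural logarithms), the order of the largest gaps between consecutive primes known from the starting files
(`MP_3bc45c_nt.RecordGaps`). We show that for every `ε > 0` every interval `(M, M + M^ε]` with a large `M` contains a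
self number without primes within `κ f(M)`.

Proof. Let `n = w b^j + a` with `a < b^j`, where `b^j` is about `log n`, the last digit of `w` is `1` and
`a = s(w) + A` with a self number `A ≥ (b - 1) j`. Then `n` is a self number: `n = m + s(m)` with `s(m) ≤ a` gives
`c + s(c) = A` for `c = a - s(m)`, and with `s(m) > a` it gives `s(m) ≤ s(w) - 1 + (b - 1) j < a`. So one has to
prescribe the sum of the digits of `n` exactly and `n` modulo `b^(j+1)`, which the theorem behind
`MP_69be96_nt.ExactDigitSums` (uniform in the modulus) does. There are self numbers `A` between `(b - 1) j` and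
`b^(j-2)`, since `w b³ + b² - b + 1` and `w b³ + b²` have the same value `m + s(m)` for every `w`.
-/

namespace Pool.Agent.Results.MP_926cc3_nt.SelfNumbersInRecordGaps

/-- The record scale `f(x) = log x (log₂ x)² log₄ x / (log₃ x)²` (iterated natural logarithms). -/
noncomputable def f (x : ℝ) : ℝ :=
  Real.log x * (Real.log (Real.log x)) ^ 2 * Real.log (Real.log (Real.log (Real.log x))) /
    (Real.log (Real.log (Real.log x))) ^ 2

/-- The sum of the digits of `n` in base `b`. -/
def digitSum (b n : ℕ) : ℕ := (Nat.digits b n).sum

/-- For `b ≥ 2` and `ε > 0` there are `κ > 0` and `M₀` such that for all `M ≥ M₀` there is an integer `n` with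
`M < n ≤ M + M^ε` that is not of the form `m + s(m)`, and with `|p - n| > κ f(M)` for every prime `p`. -/
theorem result (b : ℕ) (hb : 2 ≤ b) (ε : ℝ) (hε : 0 < ε) :
    ∃ κ : ℝ, 0 < κ ∧ ∃ M₀ : ℕ, ∀ M : ℕ, M₀ ≤ M → ∃ n : ℕ, M < n ∧ (n : ℝ) ≤ M + (M : ℝ) ^ ε ∧
      (∀ m : ℕ, m + digitSum b m ≠ n) ∧ ∀ p : ℕ, p.Prime → κ * f M < |(p : ℝ) - n| :=
  Pool.Agent.helper391_SN.selfnum b hb ε hε

end Pool.Agent.Results.MP_926cc3_nt.SelfNumbersInRecordGaps
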